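import Mathlib

set_option autoImplicit false
set_option maxHeartbeats 400000

open MvPolynomial TensorProduct

namespace Pool.Agent.Results.MP_987c99_al.LozBig

section Defs

/-- `dim_Q (Q ⊗_Z P)`. -/
noncomputable def dimTensor (Z Q P : Type) [CommSemiring Z] [Semiring Q] [Algebra Z Q]
    [AddCommMonoid P] [Module Z P] : Cardinal :=
  Module.rank Q (Q ⊗[Z] P)

/-- The rank of a `Z`-module `P`: `dim_Q (Q ⊗_Z P)` with `Q = Frac Z`. -/
noncomputable def rk (Z P : Type) [CommRing Z] [AddCommMonoid P] [Module Z P] : Cardinal :=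
  dimTensor Z (FractionRing Z) P

variable (k : Type) {P : Type} [Field k] [CommRing P] [Algebra k P]

/-- `k`-linearity of the bracket in its second argument. -/
def LinR (br : P → P → P) : Prop :=
  (∀ a b c, br a (b + c) = br a b + br a c) ∧ ∀ (r : k) a b, br a (r • b) = r • br a b

/-- A Poisson bracket: `k`-bilinear, alternating, with the Jacobi and Leibniz rules. -/
def IsPoisson (br : P → P → P) : Prop :=
  LinR k br ∧ LinR k (fun a b => br b a) ∧ (∀ a, br a a = 0) ∧
    (∀ a b c, br a (br b c) + br b (br c a) + br c (br a b) = 0) ∧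
    ∀ a b c, br a (b * c) = br a b * c + b * br a c

variable {k}

theorem IsPoisson.skew {br : P → P → P} (h : IsPoisson k br) (u v : P) :
    br u v = - br v u := by
  have h1 := h.2.2.1 (u + v)
  have h2 := h.2.1.1 u u v
  have h3 := h.2.1.1 v u v
  rw [h.1.1] at h1
  simp only [h.2.2.1] at h2 h3
  linear_combination h1 - h2 - h3

/-- The set of Poisson central elements. -/
def centerSet (br : P → P → P) : Set P := {z | ∀ a, br z a = 0}

theorem c_mul {br : P → P → P} (h : IsPoisson k br) {x y : P} (hx : x ∈ centerSet br)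
    (hy : y ∈ centerSet br) : x * y ∈ centerSet br := by
  intro a
  rw [h.skew, h.2.2.2.2, h.skew a x, h.skew a y, hx, hy]; ring

theorem c_add {br : P → P → P} (h : IsPoisson k br) {x y : P} (hx : x ∈ centerSet br)
    (hy : y ∈ centerSet br) : x + y ∈ centerSet br := by
  intro a
  have := h.2.1.1 a x y
  simp only at this
  rw [this, hx, hy, add_zero]

theorem c_alg {br : P → P → P} (h : IsPoisson k br) (c : k) :
    algebraMap k P c ∈ centerSet br := by
  intro a
  have h1 : br a 1 = 0 := by
    have := h.2.2.2.2 a 1 1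
    rw [mul_one, mul_one, one_mul] at this
    linear_combination -this
  rw [Algebra.algebraMap_eq_smul_one, h.skew, h.1.2, h1, smul_zero, neg_zero]

/-- The Poisson centre. -/
def center (br : P → P → P) (h : IsPoisson k br) : Subalgebra k P where
  carrier := centerSet br
  mul_mem' := c_mul h
  add_mem' := c_add h
  algebraMap_mem' := c_alg h

variable (k) in
/-- The log-ozone group: generated by the derivations `δ = f⁻¹ {-, f}`, `f ≠ 0` Poisson normal. -/
def loz (br : P → P → P) : AddSubgroup (Derivation k P P) :=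
  AddSubgroup.closure {δ | ∃ f : P, f ≠ 0 ∧ ∀ a, br a f = f * δ a}

/-- `rk_{Z(P)} P < |loz P|`. -/
def RankLtLoz (br : P → P → P) (h : IsPoisson k br) : Prop :=
  rk (center br h) P < Cardinal.mk (loz k br)

end Defs

variable {k : Type} [Field k]

abbrev P (k : Type) [Field k] := MvPolynomial (Fin 4) k

noncomputable def D (t : k) : Derivation k (P k) (P k) :=
  mkDerivation k ![X 0 * (X 0 + C t * X 0), X 1 * (X 1 + C t * X 0), X 2 * (X 2 + C t * X 0), 0]

noncomputable def dz : Derivation k (P k) (P k) := pderiv 3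

theorem D0 (t : k) : D t (X 0) = X 0 * (X 0 + C t * X 0) := by simp [D]
theorem D1 (t : k) : D t (X 1) = X 1 * (X 1 + C t * X 0) := by simp [D]
theorem D2 (t : k) : D t (X 2) = X 2 * (X 2 + C t * X 0) := by simp [D]
theorem D3 (t : k) : D t (X 3) = 0 := by simp [D]
theorem z0 : dz (X 0 : P k) = 0 := by simp [dz]
theorem z1 : dz (X 1 : P k) = 0 := by simp [dz]
theorem z2 : dz (X 2 : P k) = 0 := by simp [dz]
theorem z3 : dz (X 3 : P k) = 1 := by simp [dz]
theorem zC (c : k) : dz (C c : P k) = 0 := by simp [dz]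

theorem comm (t : k) (f : P k) : D t (dz f) = dz (D t f) := by
  have : ⁅D t, (dz : Derivation k (P k) (P k))⁆ = 0 := by
    apply derivation_ext
    intro i
    rw [Derivation.commutator_apply]
    fin_cases i <;>
      simp [D0, D1, D2, D3, z0, z1, z2, z3, Derivation.leibniz]
  have h := DFunLike.congr_fun this f
  rw [Derivation.commutator_apply] at h
  exact sub_eq_zero.1 h

noncomputable def br (t : k) (f g : P k) : P k := D t f * dz g - dz f * D t g

theorem br_apply (t : k) (f g : P k) : br t f g = D t f * dz g - dz f * D t g := rfl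

theorem poisson (t : k) : IsPoisson k (br t) := by
  refine ⟨⟨fun a b c => ?_, fun r a b => ?_⟩, ⟨fun a b c => ?_, fun r a b => ?_⟩, fun a => ?_,
    fun a b c => ?_, fun a b c => ?_⟩
  · simp only [br_apply, map_add]; ring
  · simp only [br_apply, Derivation.map_smul, smul_sub, mul_smul_comm]
  · simp only [br_apply, map_add]; ring
  · simp only [br_apply, Derivation.map_smul, smul_sub, smul_mul_assoc]
  · rw [br_apply]; ring
  · simp only [br_apply, map_sub, Derivation.leibniz, smul_eq_mul, comm]; ring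
  · simp only [br_apply, Derivation.leibniz, smul_eq_mul]; ring

theorem graded (t : k) (i j : Fin 4) : (br t (X i) (X j)).IsHomogeneous 2 := by
  have hD : ∀ i : Fin 4, (D t (X i)).IsHomogeneous 2 := by
    have h : ∀ i : Fin 4, ((X i * (X i + C t * X 0) : P k)).IsHomogeneous 2 := fun i =>
      (isHomogeneous_X k i).mul ((isHomogeneous_X k i).add ((isHomogeneous_X k 0).C_mul t))
    intro i
    fin_cases i
    · exact D0 t ▸ h 0
    · exact D1 t ▸ h 1
    · exact D2 t ▸ h 2
    · exact D3 t ▸ isHomogeneous_zero _ _ _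
  have hz : ∀ i : Fin 4, (dz (X i : P k)).IsHomogeneous 0 := by
    intro i
    fin_cases i
    · exact z0 (k := k) ▸ isHomogeneous_zero _ _ _
    · exact z1 (k := k) ▸ isHomogeneous_zero _ _ _
    · exact z2 (k := k) ▸ isHomogeneous_zero _ _ _
    · exact z3 (k := k) ▸ isHomogeneous_one _ _
  exact ((hD i).mul (hz j)).sub ((hz i).mul (hD j))

theorem mem_loz (t : k) (f l : P k) (hf : f ≠ 0) (h0 : dz f = 0) (h1 : D t f = f * l) :
    (-l) • (dz : Derivation k (P k) (P k)) ∈ loz k (br t) :=
  AddSubgroup.subset_closure ⟨f, hf, fun a => by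
    rw [br_apply, h0, h1, Derivation.smul_apply, smul_eq_mul]; ring⟩

theorem span8 {Q T : Type} [Field Q] [CommRing T] [Algebra Q T] (a b c : T) (α β γ : Q)
    (ha : a * a = algebraMap Q T α) (hb : b * b = algebraMap Q T β)
    (hc : c * c = algebraMap Q T γ) :
    ∃ W : Subalgebra Q T, a ∈ W ∧ b ∈ W ∧ c ∈ W ∧ Module.rank Q W ≤ 8 := by
  let m : Fin 8 → T := ![1, a, b, c, a * b, a * c, b * c, a * b * c]
  let V := Submodule.span Q (Set.range m)
  have hm : ∀ i, m i ∈ V := fun i => Submodule.subset_span ⟨i, rfl⟩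
  have sm : ∀ (q : Q) (i), algebraMap Q T q * m i ∈ V := fun q i => by
    rw [← Algebra.smul_def]; exact V.smul_mem _ (hm i)
  have red : ∀ u : T, (∀ i, u * m i ∈ V) → ∀ v ∈ V, u * v ∈ V := by
    intro u hu v hv
    induction hv using Submodule.span_induction with
    | mem x h => obtain ⟨i, rfl⟩ := h; exact hu i
    | zero => simp
    | add x y _ _ hx hy => rw [mul_add]; exact V.add_mem hx hy
    | smul q x _ hx => rw [mul_smul_comm]; exact V.smul_mem _ hx
  have hA : ∀ v ∈ V, a * v ∈ V := by
    apply red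
    intro i
    fin_cases i
    · convert hm 1 using 1; simp [m]
    · convert sm α 0 using 1; simp [m, ha]
    · exact hm 4
    · exact hm 5
    · convert sm α 2 using 1; simp [m, ← ha]; ring
    · convert sm α 3 using 1; simp [m, ← ha]; ring
    · convert hm 7 using 1; simp [m]; ring
    · convert sm α 6 using 1; simp [m, ← ha]; ring
  have hB : ∀ v ∈ V, b * v ∈ V := by
    apply red
    intro i
    fin_cases i
    · convert hm 2 using 1; simp [m]
    · convert hm 4 using 1; simp [m]; ring
    · convert sm β 0 using 1; simp [m, hb]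
    · exact hm 6
    · convert sm β 1 using 1; simp [m, ← hb]; ring
    · convert hm 7 using 1; simp [m]; ring
    · convert sm β 3 using 1; simp [m, ← hb]; ring
    · convert sm β 5 using 1; simp [m, ← hb]; ring
  have hC : ∀ v ∈ V, c * v ∈ V := by
    apply red
    intro i
    fin_cases i
    · convert hm 3 using 1; simp [m]
    · convert hm 5 using 1; simp [m]; ring
    · convert hm 6 using 1; simp [m]; ring
    · convert sm γ 0 using 1; simp [m, hc]
    · convert hm 7 using 1; simp [m]; ring
    · convert sm γ 1 using 1; simp [m, ← hc]; ring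
    · convert sm γ 2 using 1; simp [m, ← hc]; ring
    · convert sm γ 4 using 1; simp [m, ← hc]; ring
  have hmul : ∀ u ∈ V, ∀ v ∈ V, u * v ∈ V := by
    intro u hu v hv
    rw [mul_comm]
    apply red v _ u hu
    intro i
    fin_cases i
    · simpa [m] using hv
    · convert hA v hv using 1; simp [m]; ring
    · convert hB v hv using 1; simp [m]; ring
    · convert hC v hv using 1; simp [m]; ring
    · convert hA _ (hB v hv) using 1; simp [m]; ring
    · convert hA _ (hC v hv) using 1; simp [m]; ring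
    · convert hB _ (hC v hv) using 1; simp [m]; ring
    · convert hA _ (hB _ (hC v hv)) using 1; simp [m]; ring
  refine ⟨V.toSubalgebra (hm 0) (fun x y hx hy => hmul x hx y hy), hm 1, hm 2, hm 3, ?_⟩
  have := rank_span_le (R := Q) (Set.range m)
  refine this.trans (Cardinal.mk_range_le.trans ?_)
  simp

theorem rank_gen {A : Type} [CommRing A] [IsDomain A] [Algebra k A] (Z : Subalgebra k A)
    (a b c d w : A) (sq : ∀ f : A, f * f ∈ Z) (hw : w ∈ Z) (hu : a * b * (a + b) ≠ 0)
    (e : (a * b * (a + b) * (a * b * (a + b))) * d = (w + d * d * (a * b)) * (a * b * (a + b)))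
    (gen : ∀ S : Subring A, (∀ z ∈ Z, z ∈ S) → a ∈ S → b ∈ S → c ∈ S → d ∈ S → ∀ f, f ∈ S) :
    rk Z A ≤ 8 := by
  unfold rk dimTensor
  let ι : A →+* FractionRing Z ⊗[Z] A :=
    (Algebra.TensorProduct.includeRight : A →ₐ[Z] FractionRing Z ⊗[Z] A).toRingHom
  have hι : ∀ z : Z, ι z = algebraMap (FractionRing Z) _ (algebraMap Z (FractionRing Z) z) := by
    intro z
    rw [← IsScalarTower.algebraMap_apply]
    exact (Algebra.TensorProduct.includeRight : A →ₐ[Z] FractionRing Z ⊗[Z] A).commutes z
  obtain ⟨W, h0, h1, h3, hW⟩ := span8 (ι a) (ι b) (ι c) _ _ _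
    ((map_mul ι _ _).symm.trans (hι ⟨_, sq _⟩)) ((map_mul ι _ _).symm.trans (hι ⟨_, sq _⟩))
    ((map_mul ι _ _).symm.trans (hι ⟨_, sq _⟩))
  have hZW : ∀ z ∈ Z, ι z ∈ W := fun z hz => by
    rw [hι ⟨z, hz⟩]; exact W.algebraMap_mem _
  let S : Subring A := W.toSubring.comap ι
  have hS : ∀ f, f ∈ S ↔ ι f ∈ W := fun f => Iff.rfl
  have ha : a ∈ S := h0
  have hb : b ∈ S := h1
  have h2 : ι d ∈ W := by
    have hq : algebraMap Z (FractionRing Z) ⟨_, sq (a * b * (a + b))⟩ ≠ 0 := by
      rw [Ne, IsFractionRing.to_map_eq_zero_iff]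
      intro h
      exact mul_ne_zero hu hu (congrArg Subtype.val h)
    have e1 : (w + d * d * (a * b)) * (a * b * (a + b)) ∈ S :=
      S.mul_mem (S.add_mem ((hS _).2 (hZW _ hw)) (S.mul_mem ((hS _).2 (hZW _ (sq _)))
        (S.mul_mem ha hb))) (S.mul_mem (S.mul_mem ha hb) (S.add_mem ha hb))
    rw [← e, hS, map_mul, hι ⟨_, sq (a * b * (a + b))⟩, ← Algebra.smul_def] at e1
    have := W.smul_mem e1 (algebraMap Z (FractionRing Z) ⟨_, sq (a * b * (a + b))⟩)⁻¹
    rwa [smul_smul, inv_mul_cancel₀ hq, one_smul] at this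
  have hall : ∀ f, ι f ∈ W := gen S hZW h0 h1 h3 h2
  have htop : W = ⊤ := by
    rw [eq_top_iff]
    intro w hw'
    clear hw'
    induction w using TensorProduct.induction_on with
    | zero => exact W.zero_mem
    | tmul q f =>
      have := W.smul_mem (hall f) q
      convert this using 1
      simp [ι, TensorProduct.smul_tmul']
    | add a b ha hb => exact W.add_mem ha hb
  rw [htop] at hW
  rwa [← Subalgebra.rank_toSubmodule, Algebra.top_toSubmodule, rank_top] at hW

theorem rank_le [CharP k 2] (t : k) : rk (center (br t) (poisson t)) (P k) ≤ 8 := by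
  have two : (2 : P k) = 0 := CharTwo.two_eq_zero
  have cen : ∀ f : P k, D t f = 0 → dz f = 0 → f ∈ center (br t) (poisson t) := by
    intro f h1 h2 a
    rw [br_apply, h1, h2]; ring
  have sq : ∀ f : P k, f * f ∈ center (br t) (poisson t) := fun f =>
    cen _ (by rw [Derivation.leibniz, smul_eq_mul]; linear_combination (f * D t f) * two)
      (by rw [Derivation.leibniz, smul_eq_mul]; linear_combination (f * dz f) * two)
  have hc0 : X 0 * X 0 * X 1 * X 2 + X 1 * X 1 * X 0 * X 2 + X 2 * X 2 * X 0 * X 1 ∈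
      center (br t) (poisson t) := by
    apply cen
    · simp only [map_add, Derivation.leibniz, smul_eq_mul, D0, D1, D2]
      linear_combination (X 0 * X 1 * X 2 * (X 0 * X 0 + X 1 * X 1 + X 2 * X 2 + X 0 * X 1 +
        X 0 * X 2 + X 1 * X 2 + 2 * C t * X 0 * (X 0 + X 1 + X 2))) * two
    · simp only [map_add, Derivation.leibniz, smul_eq_mul, z0, z1, z2]; ring
  refine rank_gen _ (X 0) (X 1) (X 3) (X 2) _ sq hc0 ?_ ?_ ?_
  · refine mul_ne_zero (mul_ne_zero (X_ne_zero _) (X_ne_zero _)) fun h => ?_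
    have := congrArg (eval (![1, 0, 0, 0] : Fin 4 → k)) h
    simp at this
  · linear_combination (- X 2 * X 2 * X 0 * X 1 * (X 0 * X 1 * (X 0 + X 1))) * two
  · intro S hZ h0 h1 h3 h2 f
    induction f using MvPolynomial.induction_on with
    | C c => exact hZ _ (Subalgebra.algebraMap_mem _ c)
    | add p q hp hq => exact S.add_mem hp hq
    | mul_X p i hp =>
      refine S.mul_mem hp ?_
      fin_cases i
      exacts [h0, h1, h2, h3]

theorem indep [CharP k 2] (t : k) (ht0 : t ≠ 0) (ht1 : t + 1 ≠ 0) (c0 c1 c2 c3 : ZMod 2)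
    (φ : ZMod 2 →+* k) (e0 : φ c0 * (1 + t) + φ c1 * t + φ c2 * t + φ c3 * (1 + t) = 0)
    (e1 : φ c1 + φ c3 = 0) (e2 : φ c2 = 0) : c0 = 0 ∧ c1 = 0 ∧ c2 = 0 ∧ c3 = 0 := by
  have twok : (2 : k) = 0 := CharTwo.two_eq_zero
  have h : ∀ c : ZMod 2, c = 0 ∨ c = 1 := by decide
  rcases h c0 with rfl | rfl <;> rcases h c1 with rfl | rfl <;> rcases h c2 with rfl | rfl <;>
    rcases h c3 with rfl | rfl <;>
    simp only [map_zero, map_one, zero_mul, one_mul, add_zero, zero_add, one_ne_zero] at e0 e1 e2
  · exact ⟨rfl, rfl, rfl, rfl⟩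
  · exact absurd (by linear_combination e0 - t * twok) (one_ne_zero (α := k))
  · exact absurd (by linear_combination e0) ht1
  · exact absurd (by linear_combination e0 - (1 + t) * twok) ht0

theorem card_ge [CharP k 2] (t : k) (ht0 : t ≠ 0) (ht1 : t + 1 ≠ 0) :
    (16 : Cardinal) ≤ Cardinal.mk (loz k (br t)) := by
  have two : (2 : P k) = 0 := CharTwo.two_eq_zero
  let φ : ZMod 2 →+* k := ZMod.castHom (dvd_refl 2) k
  have h2 : ∀ c : ZMod 2, c = 0 ∨ c = 1 := by decide
  have hs : ∀ (c : ZMod 2) (δ : Derivation k (P k) (P k)), δ ∈ loz k (br t) →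
      φ c • δ ∈ loz k (br t) := by
    intro c δ h
    rcases h2 c with rfl | rfl
    · rw [map_zero, zero_smul]; exact AddSubgroup.zero_mem _
    · rw [map_one, one_smul]; exact h
  have m0 := mem_loz t _ _ (X_ne_zero 0) z0 (D0 t)
  have m1 := mem_loz t _ _ (X_ne_zero 1) z1 (D1 t)
  have m2 := mem_loz t _ _ (X_ne_zero 2) z2 (D2 t)
  have m3 := mem_loz t (X 0 + X 1) (X 0 + X 1 + C t * X 0) (by
      intro h
      have := congrArg (eval (![1, 0, 0, 0] : Fin 4 → k)) h
      simp at this) (by rw [map_add, z0, z1, add_zero]) (by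
      rw [map_add, D0, D1]
      linear_combination (- X 0 * X 1) * two)
  let F : ZMod 2 × ZMod 2 × ZMod 2 × ZMod 2 → loz k (br t) := fun n =>
    ⟨_, AddSubgroup.add_mem _ (AddSubgroup.add_mem _ (AddSubgroup.add_mem _ (hs n.1 _ m0)
      (hs n.2.1 _ m1)) (hs n.2.2.1 _ m2)) (hs n.2.2.2 _ m3)⟩
  have hF : Function.Injective F := by
    rintro ⟨a0, a1, a2, a3⟩ ⟨b0, b1, b2, b3⟩ h
    have h1 := congrArg (fun d : loz k (br t) => (d : Derivation k (P k) (P k)) (X 3)) h
    simp only [F, Derivation.add_apply, Derivation.smul_apply, z3, smul_eq_mul, mul_one,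
      smul_eq_C_mul] at h1
    have e0 := congrArg (eval (![1, 0, 0, 0] : Fin 4 → k)) h1
    have e1 := congrArg (eval (![0, 1, 0, 0] : Fin 4 → k)) h1
    have e2 := congrArg (eval (![0, 0, 1, 0] : Fin 4 → k)) h1
    simp only [map_add, map_neg, map_mul, eval_X, eval_C,
      Matrix.cons_val_zero, Matrix.cons_val_one, Matrix.cons_val] at e0 e1 e2
    obtain ⟨r0, r1, r2, r3⟩ := indep t ht0 ht1 (a0 - b0) (a1 - b1) (a2 - b2) (a3 - b3) φ
      (by simp only [map_sub]; linear_combination -e0)
      (by simp only [map_sub]; linear_combination -e1)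
      (by simp only [map_sub]; linear_combination -e2)
    rw [sub_eq_zero.1 r0, sub_eq_zero.1 r1, sub_eq_zero.1 r2, sub_eq_zero.1 r3]
  have := Cardinal.mk_le_of_injective hF
  simp only [Cardinal.mk_fintype, Fintype.card_prod, ZMod.card] at this
  exact_mod_cast this

theorem result : ∃ (k : Type) (_ : Field k) (_ : CharP k 2) (n : ℕ)
    (br : MvPolynomial (Fin n) k → MvPolynomial (Fin n) k → MvPolynomial (Fin n) k)
    (h : IsPoisson k br), 1 ≤ n ∧ (∀ i j, (br (X i) (X j)).IsHomogeneous 2) ∧
      RankLtLoz br h := by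
  let K := AlgebraicClosure (ZMod 2)
  obtain ⟨t, ht⟩ := (Set.toFinite ({0, -1} : Set K)).infinite_compl.nonempty
  simp only [Set.mem_compl_iff, Set.mem_insert_iff, Set.mem_singleton_iff, not_or] at ht
  refine ⟨K, inferInstance, inferInstance, 4, br t, poisson t, by norm_num, graded t, ?_⟩
  refine (rank_le t).trans_lt (lt_of_lt_of_le ?_ (card_ge t ht.1 ?_))
  · exact_mod_cast (by norm_num : (8 : ℕ) < 16)
  · intro h; exact ht.2 (by linear_combination h)

end Pool.Agent.Results.MP_987c99_al.LozBig
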